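import Pool.Agent.T9h32.EV.Core

/-!
# Eigenvalues a power of which is a value of a character: the main argument (helper32)
-/

set_option autoImplicit false

namespace Pool.Agent.T9h32.ER

open MeasureTheory Topology Polynomial Pool.Agent.R401.Img Module Pool.Agent.T9h32.EV

section good
variable {Γ : Type*} [Group Γ] {F : Type*} [Field F] (E : Type*) [Field E] [Algebra F E] {n r : ℕ}
  (ρ : Γ →* GL (Fin n) F) (ψ : Fin r → Γ →* F)

/-- the good elements -/
def XE (m N : ℕ) : Set Γ :=
  {g | ∀ z : E, (mE E ρ g).charpoly.IsRoot z → ∃ j, z ^ m = algebraMap F E (ψ j g) ^ N}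

variable {E ρ ψ}

theorem XE_conj (m N : ℕ) : ∀ g ∈ XE E ρ ψ m N, ∀ x : Γ, x * g * x⁻¹ ∈ XE E ρ ψ m N := by
  intro g hg x z hz
  have h1 : (mE E ρ (x * g * x⁻¹)).charpoly = (mE E ρ g).charpoly := by
    let u : (Matrix (Fin n) (Fin n) E)ˣ :=
      { val := mE E ρ x
        inv := mE E ρ x⁻¹
        val_inv := by rw [← mE_mul, mul_inv_cancel, mE_one]
        inv_val := by rw [← mE_mul, inv_mul_cancel, mE_one] }
    have h2 : mE E ρ (x * g * x⁻¹) = (u : Matrix (Fin n) (Fin n) E) * mE E ρ g * (u⁻¹ : _ˣ) := by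
      rw [mE_mul, mE_mul]
      rfl
    rw [h2, Matrix.coe_units_inv]
    exact Matrix.charpoly_units_conj u (mE E ρ g)
  rw [h1] at hz
  obtain ⟨j, hj⟩ := hg z hz
  refine ⟨j, ?_⟩
  rw [psi_conj]
  exact hj

/-- the polynomial criterion -/
theorem eig_iff2 [IsAlgClosed E] (M : Matrix (Fin n) (Fin n) E) {m : ℕ} (hm : 0 < m)
    (c : Fin r → E) :
    (∀ z : E, M.charpoly.IsRoot z → ∃ j, z ^ m = c j) ↔
      aeval M ((∏ j, (X ^ m - C (c j))) ^ n) = 0 := by
  choose c' hc' using fun j => IsAlgClosed.exists_pow_nat_eq (c j) hm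
  have h1 := eig_iff (N := m) M c'
  simp only [hc'] at h1
  exact h1

theorem XE_mem [IsAlgClosed E] {m : ℕ} (hm : 0 < m) (N : ℕ) :
    XE E ρ ψ m N ∈ zfam E (xx ρ ψ) := by
  let 𝒜 := reg E (xx ρ ψ)
  let M : Matrix (Fin n) (Fin n) 𝒜 := Matrix.of fun i j => ⟨fun g => mE E ρ g i j, mE_mem i j⟩
  let c : Fin r → 𝒜 := fun j => ⟨fun g => algebraMap F E (ψ j g), psi_mem j⟩
  let Q : Matrix (Fin n) (Fin n) 𝒜 := aeval M ((∏ j, (X ^ m - C (c j ^ N))) ^ n)
  refine ⟨Set.range fun ij : Fin n × Fin n => (Q ij.1 ij.2 : Γ → E), ?_, ?_⟩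
  · rintro _ ⟨ij, rfl⟩
    exact (Q ij.1 ij.2).2
  · ext g
    let ev : 𝒜 →+* E := (Pi.evalRingHom (fun _ : Γ => E) g).comp 𝒜.val.toRingHom
    have h1 : ev.mapMatrix Q = aeval (mE E ρ g)
        ((∏ j, (X ^ m - C (algebraMap F E (ψ j g) ^ N))) ^ n) := by
      rw [map_aeval_matrix]
      congr 1
      rw [Polynomial.map_pow, Polynomial.map_prod]
      congr 1
      refine Finset.prod_congr rfl fun j _ => ?_
      rw [Polynomial.map_sub, Polynomial.map_pow, map_X, map_C, map_pow]
      rfl
    have h2 : g ∈ XE E ρ ψ m N ↔ ev.mapMatrix Q = 0 := by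
      rw [h1]
      exact eig_iff2 (mE E ρ g) hm fun j => algebraMap F E (ψ j g) ^ N
    rw [h2]
    constructor
    · rintro h3 _ ⟨ij, rfl⟩
      exact congrFun (congrFun h3 ij.1) ij.2
    · intro h3
      ext i j
      exact h3 _ ⟨(i, j), rfl⟩

/-- eigenvalues of good elements on subspaces -/
theorem XE_eigen {m N : ℕ} {g : Γ} (hg : g ∈ XE E ρ ψ m N) {v : Fin n → E} (hv : v ≠ 0) {z : E}
    (hz : (mE E ρ g).mulVec v = z • v) : ∃ j, z ^ m = algebraMap F E (ψ j g) ^ N := by
  apply hg
  rw [← Matrix.charpoly_toLin', ← Module.End.hasEigenvalue_iff_isRoot_charpoly]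
  exact Module.End.hasEigenvalue_of_hasEigenvector (x := v)
    ⟨Module.End.mem_eigenspace_iff.2 hz, hv⟩

end good

section tools
variable {E : Type*} [Field E]

theorem finite_pow_eq {m : ℕ} (hm : 0 < m) (c : E) : {z : E | z ^ m = c}.Finite := by
  classical
  have h1 : {z : E | z ^ m = c} ⊆ ((X ^ m - C c).roots.toFinset : Set E) := by
    intro z hz
    rw [Finset.mem_coe, Multiset.mem_toFinset, mem_roots (X_pow_sub_C_ne_zero hm c)]
    simpa [sub_eq_zero] using hz
  exact Set.Finite.subset (Finset.finite_toSet _) h1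

/-- a finite set of endomorphisms detected by traces -/
theorem finite_of_trace {V : Type*} [AddCommGroup V] [Module E V] [FiniteDimensional E V]
    {s : Set (Module.End E V)} (hs : Submodule.span E s = ⊤) {G G' : Module.End E V}
    (hG : G' * G = 1) {T : Set (Module.End E V)}
    (h : ∀ B ∈ s, {t : E | ∃ A ∈ T, t = LinearMap.trace E V (G * B * A)}.Finite) : T.Finite := by
  classical
  obtain ⟨s', hs', hspan⟩ := (Submodule.fg_span_iff_fg_span_finset_subset s).1 (by
    rw [hs]
    exact Module.Finite.fg_top)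
  rw [hs] at hspan
  let f : Module.End E V → (s' → E) := fun A B => LinearMap.trace E V (G * B * A)
  have hinj : Set.InjOn f T := by
    intro A _ A' _ hAA
    have h1 : ∀ B : Module.End E V, LinearMap.trace E V (G * B * (A - A')) = 0 := by
      intro B
      have hB : B ∈ Submodule.span E (s' : Set (Module.End E V)) := by
        rw [← hspan]
        trivial
      induction hB using Submodule.span_induction with
      | mem B hB =>
        have h2 := congrFun hAA ⟨B, hB⟩
        have h3 : LinearMap.trace E V (G * B * A) = LinearMap.trace E V (G * B * A') := h2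
        rw [mul_sub, map_sub, h3, sub_self]
      | zero => rw [mul_zero, zero_mul, map_zero]
      | add B B' _ _ h1 h2 => rw [mul_add, add_mul, map_add, h1, h2, add_zero]
      | smul a B _ h1 => rw [mul_smul_comm, smul_mul_assoc, map_smul, h1, smul_zero]
    rw [← sub_eq_zero]
    by_contra hne
    obtain ⟨v, hv⟩ : ∃ v, (A - A') v ≠ 0 := by
      by_contra hcon
      push Not at hcon
      exact hne (LinearMap.ext hcon)
    obtain ⟨l, hl⟩ : ∃ l : Module.Dual E V, l ((A - A') v) ≠ 0 := by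
      by_contra hcon
      push Not at hcon
      exact hv ((Module.forall_dual_apply_eq_zero_iff E _).1 hcon)
    have h2 := h1 (G' * l.smulRight v)
    have h3 : G * (G' * l.smulRight v) * (A - A') = (l ∘ₗ (A - A')).smulRight v := by
      have h4 : G * G' = 1 := mul_eq_one_comm.1 hG
      rw [← mul_assoc, h4, one_mul]
      ext x
      rfl
    rw [h3, LinearMap.trace_smulRight] at h2
    exact hl h2
  refine Set.Finite.of_finite_image ?_ hinj
  have h5 : f '' T ⊆ Set.pi Set.univ fun B : s' =>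
      {t : E | ∃ A ∈ T, t = LinearMap.trace E V (G * B * A)} := by
    rintro _ ⟨A, hA, rfl⟩ B _
    exact ⟨A, hA, rfl⟩
  refine Set.Finite.subset (Set.Finite.pi' fun B : s' => h (B : Module.End E V) (hs' B.2)) ?_
  intro x hx B
  exact h5 hx B trivial

end tools

end Pool.Agent.T9h32.ER
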