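import Pool.Agent.T9h32.ER.Scal
import Pool.Agent.T9h32.EV.Fin

/-!
# Ratios of Frobenius eigenvalues (helper32)
-/

set_option autoImplicit false

namespace Pool.Agent.T9h32.ER

open MeasureTheory Filter Topology Polynomial NumberField IsDedekindDomain
open Pool.Agent.R401.Img Pool.Agent.R401.Eng Pool.Agent.W401.Cheb Pool.Agent.T9h32.EV

section bound
variable {Γ : Type} [Group Γ] [TopologicalSpace Γ] [IsTopologicalGroup Γ] [CompactSpace Γ]
  [TotallyDisconnectedSpace Γ] (p : ℕ) [hp : Fact p.Prime] {F : Type} [NormedField F]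
  [NormedAlgebra ℚ_[p] F] {E : Type} [Field E] [Algebra F E] {n r : ℕ}
  {ρ : Γ →* GL (Fin n) F} {ψ : Fin r → Γ →* F}

include p in
/-- the orders of the roots of unity are bounded -/
theorem exists_N2 (hρ : Continuous ρ) (hψ : ∀ j, Continuous (ψ j)) (e : ℕ) :
    ∃ N : ℕ, 0 < N ∧ ∀ g : Γ, (∀ z : E, (mE E ρ g).charpoly.IsRoot z →
      ∃ j, ∃ a : ℕ, 0 < a ∧ (z ^ e) ^ a = algebraMap F E (ψ j g) ^ a) →
        g ∈ XE E ρ ψ (e * N) N := by
  classical
  have hult : IsUltrametricDist F := ultra p F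
  set ε : ℝ := ((p : ℝ))⁻¹ with hε
  have hp0 : (0 : ℝ) < p := by exact_mod_cast hp.out.pos
  have hε0 : 0 < ε := inv_pos.2 hp0
  have hε1 : ε ≤ 1 := inv_le_one_of_one_le₀ (by exact_mod_cast hp.out.one_le)
  have hprime : ∀ l : ℕ, l.Prime → ε ≤ ‖(l : F)‖ := fun l hl => norm_prime p F l hl
  -- a small open subgroup
  have hnhds : {g : Γ | Near ε (mt ρ g) ∧ ∀ j, ‖ψ j g - 1‖ < ε} ∈ 𝓝 (1 : Γ) := by
    have h1 : ∀ i k : Fin n, {g : Γ | ‖(mt ρ g - 1) i k‖ < ε} ∈ 𝓝 (1 : Γ) := by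
      intro i k
      have hc : Continuous fun g => ‖(mt ρ g - 1) i k‖ := by
        have h2 := Pool.Agent.R401.Sup.continuous_entry ρ hρ i k
        exact (h2.sub continuous_const).norm
      refine (isOpen_lt hc continuous_const).mem_nhds ?_
      show ‖(mt ρ 1 - 1) i k‖ < ε
      rw [Pool.Agent.R401.Sup.mt_one, sub_self, Matrix.zero_apply, norm_zero]
      exact hε0
    have h2 : ∀ j, {g : Γ | ‖ψ j g - 1‖ < ε} ∈ 𝓝 (1 : Γ) := by
      intro j
      refine (isOpen_lt ((hψ j).sub continuous_const).norm continuous_const).mem_nhds ?_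
      show ‖ψ j 1 - 1‖ < ε
      rw [map_one, sub_self, norm_zero]
      exact hε0
    have h3 : (⋂ i, ⋂ k, {g : Γ | ‖(mt ρ g - 1) i k‖ < ε}) ∩ (⋂ j, {g : Γ | ‖ψ j g - 1‖ < ε}) ∈
        𝓝 (1 : Γ) :=
      inter_mem (iInter_mem.2 fun i => iInter_mem.2 fun k => h1 i k) (iInter_mem.2 h2)
    refine mem_of_superset h3 ?_
    rintro g ⟨hg1, hg2⟩
    rw [Set.mem_iInter] at hg1 hg2
    exact ⟨fun i k => (Set.mem_iInter.1 (hg1 i)) k, hg2⟩
  obtain ⟨s, hs1, hs2, hs3⟩ := mem_nhds_iff.1 hnhds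
  obtain ⟨U, hU⟩ := ProfiniteGrp.exist_openNormalSubgroup_sub_open_nhds_of_one hs2 hs3
  have hUn : (U : Subgroup Γ).Normal := U.isNormal'
  have hfin : Finite (Γ ⧸ (U : Subgroup Γ)) := Subgroup.quotient_finite_of_isOpen _ U.isOpen'
  have hfi : (U : Subgroup Γ).FiniteIndex := Subgroup.finiteIndex_of_finite_quotient
  refine ⟨(U : Subgroup Γ).index, Nat.pos_of_ne_zero hfi.index_ne_zero, ?_⟩
  intro g hg z hz
  set N := (U : Subgroup Γ).index with hN
  have hgN : g ^ N ∈ (U : Subgroup Γ) := Subgroup.pow_index_mem _ g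
  have hgN2 : g ^ (e * N) ∈ (U : Subgroup Γ) := by
    rw [mul_comm, pow_mul]
    exact (U : Subgroup Γ).pow_mem hgN e
  obtain ⟨-, hpsi⟩ := hs1 (hU hgN)
  obtain ⟨hnear, -⟩ := hs1 (hU hgN2)
  obtain ⟨j, a, ha, hza⟩ := hg z hz
  refine ⟨j, ?_⟩
  -- an eigenvector
  obtain ⟨v, hv, hvz⟩ : ∃ v, v ≠ 0 ∧ (mE E ρ g).mulVec v = z • v := by
    have h1 : Module.End.HasEigenvalue (Matrix.toLin' (mE E ρ g)) z := by
      rw [Module.End.hasEigenvalue_iff_isRoot_charpoly, Matrix.charpoly_toLin']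
      exact hz
    obtain ⟨v, hv⟩ := h1.exists_hasEigenvector
    exact ⟨v, hv.2, by simpa using hv.apply_eq_smul⟩
  have hpow : ∀ k : ℕ, (mE E ρ (g ^ k)).mulVec v = z ^ k • v := by
    intro k
    induction k with
    | zero => rw [pow_zero, pow_zero, mE_one, Matrix.one_mulVec, one_smul]
    | succ k ih =>
      rw [pow_succ', mE_mul, ← Matrix.mulVec_mulVec, ih, Matrix.mulVec_smul, hvz, smul_smul,
        pow_succ]
  set c : F := ψ j (g ^ N) with hc
  have hc0 : c ≠ 0 := Pool.Agent.R401.Sup.c_ne (ψ j) _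
  have hc1 : ‖c - 1‖ < ε := hpsi j
  have hcn : ‖c‖ = 1 := by
    have h1 : ‖c - 1‖ < ‖(1 : F)‖ := by
      rw [norm_one]
      exact lt_of_lt_of_le hc1 hε1
    have h2 := IsUltrametricDist.norm_add_eq_max_of_norm_ne_norm (x := c - 1) (y := 1) h1.ne
    rw [sub_add_cancel, max_eq_right h1.le, norm_one] at h2
    exact h2
  have hT : Near ε (c⁻¹ • mt ρ (g ^ (e * N))) := by
    intro i k
    have h1 : c⁻¹ • mt ρ (g ^ (e * N)) - 1 = c⁻¹ • (mt ρ (g ^ (e * N)) - 1) + (c⁻¹ - 1) • 1 := by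
      rw [smul_sub, sub_smul, one_smul]
      abel
    rw [h1, Matrix.add_apply, Matrix.smul_apply, Matrix.smul_apply, smul_eq_mul, smul_eq_mul]
    refine lt_of_le_of_lt (IsUltrametricDist.norm_add_le_max _ _) (max_lt ?_ ?_)
    · rw [norm_mul, norm_inv, hcn, inv_one, one_mul]
      exact hnear i k
    · rw [norm_mul]
      have h2 : ‖c⁻¹ - 1‖ < ε := by
        have h3 : c⁻¹ - 1 = - (c⁻¹ * (c - 1)) := by
          field_simp
          ring
        rw [h3, norm_neg, norm_mul, norm_inv, hcn, inv_one, one_mul]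
        exact hc1
      have h4 : ‖(1 : Matrix (Fin n) (Fin n) F) i k‖ ≤ 1 := by
        by_cases hik : i = k
        · rw [hik, Matrix.one_apply_eq, norm_one]
        · rw [Matrix.one_apply_ne hik, norm_zero]
          exact zero_le_one
      calc ‖c⁻¹ - 1‖ * ‖(1 : Matrix (Fin n) (Fin n) F) i k‖ ≤ ‖c⁻¹ - 1‖ * 1 :=
            mul_le_mul_of_nonneg_left h4 (norm_nonneg _)
        _ < ε := by
          rw [mul_one]
          exact h2
  have hcE : algebraMap F E c ≠ 0 := by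
    rw [Ne, map_eq_zero]
    exact hc0
  have hcE' : algebraMap F E c = algebraMap F E (ψ j g) ^ N := by
    rw [hc, map_pow, map_pow]
  have hζ := hT.eig (E := E) hε0 hε1 hprime hv (ζ := (algebraMap F E c)⁻¹ * z ^ (e * N)) (by
    have h1 : (c⁻¹ • mt ρ (g ^ (e * N))).map (algebraMap F E) =
        (algebraMap F E c)⁻¹ • mE E ρ (g ^ (e * N)) := by
      ext i k
      rw [Matrix.map_apply, Matrix.smul_apply, smul_eq_mul, map_mul, map_inv₀, Matrix.smul_apply,
        smul_eq_mul]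
      rfl
    rw [h1, Matrix.smul_mulVec, hpow, smul_smul]) ha (by
    have h2 : (z ^ (e * N)) ^ a = algebraMap F E (ψ j g) ^ (N * a) := by
      calc (z ^ (e * N)) ^ a = ((z ^ e) ^ a) ^ N := by
            rw [← pow_mul, ← pow_mul, ← pow_mul]
            congr 1
            ring
        _ = algebraMap F E (ψ j g) ^ (N * a) := by
            rw [hza, ← pow_mul, mul_comm a N]
    rw [hcE', mul_pow, inv_pow, h2, ← pow_mul, inv_mul_cancel₀]
    apply pow_ne_zero
    rw [Ne, map_eq_zero]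
    exact Pool.Agent.R401.Sup.c_ne (ψ j) g)
  rw [inv_mul_eq_one₀ hcE] at hζ
  rw [← hζ, hcE']

end bound

section ratio
variable {Γ : Type*} [Group Γ] {F : Type*} [Field F] {E : Type*} [Field E] [Algebra F E]
  [IsAlgClosed E] {n r : ℕ} {ρ : Γ →* GL (Fin n) F} {φ : Fin r → Γ →* F}

/-- the determinant -/
noncomputable def dt (ρ : Γ →* GL (Fin n) F) : Γ →* F :=
  { toFun := fun g => (mt ρ g).det
    map_one' := by rw [Pool.Agent.R401.Sup.mt_one, Matrix.det_one]
    map_mul' := fun g h => by rw [mt_mul, Matrix.det_mul] }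

/-- a power of the determinant times a product of characters -/
noncomputable def dtc (ρ : Γ →* GL (Fin n) F) (φ : Fin r → Γ →* F) (e : ℕ) (s : Fin n → Fin r) :
    Γ →* F :=
  dt ρ ^ e * ∏ i, φ (s i)

omit [IsAlgClosed E] in
theorem dtc_apply (e : ℕ) (s : Fin n → Fin r) (g : Γ) :
    dtc ρ φ e s g = (mt ρ g).det ^ e * ∏ i, φ (s i) g := by
  unfold dtc
  rw [MonoidHom.mul_apply, MonoidHom.finset_prod_apply]
  rfl

/-- ratios and the determinant -/
theorem ratio_det {g : Γ} {e : ℕ} (hg : ∀ z w : E, (mE E ρ g).charpoly.IsRoot z →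
    (mE E ρ g).charpoly.IsRoot w → ∃ j, ∃ a : ℕ, 0 < a ∧
      (z ^ e) ^ a = (algebraMap F E (φ j g) * w ^ e) ^ a) {z : E}
    (hz : (mE E ρ g).charpoly.IsRoot z) :
    ∃ s : Fin n → Fin r, ∃ a : ℕ, 0 < a ∧
      (z ^ (n * e)) ^ a = algebraMap F E (dtc ρ φ e s g) ^ a := by
  classical
  have hs := IsAlgClosed.splits (mE E ρ g).charpoly
  have hcard : Multiset.card (mE E ρ g).charpoly.roots = n := by
    rw [← hs.natDegree_eq_card_roots, Matrix.charpoly_natDegree_eq_dim, Fintype.card_fin]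
  obtain ⟨l, hl⟩ : ∃ l : List E, (l : Multiset E) = (mE E ρ g).charpoly.roots :=
    ⟨_, Multiset.coe_toList _⟩
  have hlen : l.length = n := by
    rw [← hcard, ← hl, Multiset.coe_card]
  have hdet : (mE E ρ g).det = l.prod := by
    rw [Matrix.det_eq_prod_roots_charpoly, ← hl, Multiset.prod_coe]
  subst hlen
  have hroot : ∀ i : Fin l.length, (mE E ρ g).charpoly.IsRoot (l.get i) := by
    intro i
    have h2 : l.get i ∈ (mE E ρ g).charpoly.roots := by
      rw [← hl]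
      exact Multiset.mem_coe.2 (List.get_mem _ _)
    exact (mem_roots'.1 h2).2
  choose s a ha hsa using fun i => hg z (l.get i) hz (hroot i)
  refine ⟨s, ∏ i, a i, Finset.prod_pos fun i _ => ha i, ?_⟩
  have h1 : ∀ i, (z ^ e) ^ (∏ i, a i) =
      (algebraMap F E (φ (s i) g) * (l.get i) ^ e) ^ (∏ i, a i) := by
    intro i
    obtain ⟨b, hb⟩ : a i ∣ ∏ i, a i := Finset.dvd_prod_of_mem a (Finset.mem_univ i)
    rw [hb, pow_mul, hsa i, ← pow_mul]
  have h2 : (z ^ (l.length * e)) ^ (∏ i, a i) = ∏ i : Fin l.length, (z ^ e) ^ (∏ i, a i) := by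
    rw [Finset.prod_const, Finset.card_univ, Fintype.card_fin, ← pow_mul, ← pow_mul, ← pow_mul]
    congr 1
    ring
  have h3 : algebraMap F E (dtc ρ φ e s g) = ∏ i : Fin l.length,
      (algebraMap F E (φ (s i) g) * (l.get i) ^ e) := by
    rw [dtc_apply, map_mul, map_prod, map_pow, RingHom.map_det, Finset.prod_mul_distrib]
    have h4 : ((algebraMap F E).mapMatrix (mt ρ g)).det = l.prod := hdet
    rw [h4, mul_comm, Finset.prod_pow]
    congr 2
    conv_lhs => rw [← List.ofFn_get l, List.prod_ofFn]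
  rw [h2, h3, ← Finset.prod_pow]
  exact Finset.prod_congr rfl fun i _ => h1 i

end ratio

section main
variable {K : Type} [Field K] [NumberField K] (p : ℕ) [hp : Fact p.Prime] {F : Type}
  [NormedField F] [NormedAlgebra ℚ_[p] F] {n r : ℕ}
  {ρ : GK K →* GL (Fin n) F} {φ : Fin r → GK K →* F}

include p in
/-- powers of eigenvalues among the values of characters -/
theorem mainE (hn : 0 < n) (hρ : Continuous ρ)
    (hirr : ∀ W : Submodule F (Fin n → F), Stab ρ W → W = ⊥ ∨ W = ⊤)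
    (hφ : ∀ j, Continuous (φ j)) {e : ℕ} (he : 0 < e) (P : Set (HeightOneSpectrum (𝓞 K)))
    (hP : ∀ v ∈ P, ∀ g, IsFrob v g → ∀ z : AlgebraicClosure F,
      (mE (AlgebraicClosure F) ρ g).charpoly.IsRoot z →
      ∃ j, ∃ a : ℕ, 0 < a ∧ (z ^ e) ^ a = algebraMap F (AlgebraicClosure F) (φ j g) ^ a)
    {θ : ℝ} (hθ : n * θ < 1) (hfreq : ∃ᶠ N : ℕ in atTop, dens (fun v => v ∉ P) N ≤ θ) :
    ∃ j, ∃ N : ℕ, 0 < N ∧ ∃ U : Subgroup (GK K), IsOpen (U : Set (GK K)) ∧ U.Normal ∧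
      ∀ u ∈ U, ∃ a : F, mt ρ u = a • (1 : Matrix _ _ F) ∧ a ^ (e * N) = φ j u ^ N := by
  classical
  have hcharF : CharZero F := charZero_of_injective_algebraMap (algebraMap ℚ_[p] F).injective
  obtain ⟨N, hN, hNX⟩ := exists_N2 (E := AlgebraicClosure F) p hρ hφ e
  have hm : 0 < e * N := Nat.mul_pos he hN
  have hxx : ∀ i, Continuous (xx ρ φ i) := by
    rintro (⟨i, j⟩ | j)
    · exact Pool.Agent.R401.Sup.continuous_entry ρ hρ i j
    · exact hφ j
  have hcl : IsClosed (XE (AlgebraicClosure F) ρ φ (e * N) N) :=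
    (zFam_zfam (E := AlgebraicClosure F) hxx xx_left).closed _ (XE_mem hm N)
  have hbad : ∃ᶠ M : ℕ in atTop, dens (fun v : HeightOneSpectrum (𝓞 K) =>
      ∃ g, IsFrob v g ∧ g ∉ XE (AlgebraicClosure F) ρ φ (e * N) N) M ≤ θ := by
    refine hfreq.mono fun M hM => le_trans (dens_le ?_ M) hM
    rintro v ⟨g, hg, hgX⟩ hv
    exact hgX (hNX g (hP v hv g hg))
  letI : MeasurableSpace (GK K) := borel (GK K)
  haveI : BorelSpace (GK K) := ⟨rfl⟩
  let μ : Measure (GK K) := Measure.haarMeasure ⊤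
  have hprob : IsProbabilityMeasure μ := ⟨by
    have := Measure.haarMeasure_self (K₀ := (⊤ : TopologicalSpace.PositiveCompacts (GK K)))
    exact this⟩
  have hμ : ENNReal.ofReal (1 - θ) ≤ μ (XE (AlgebraicClosure F) ρ φ (e * N) N) := by
    refine le_measure μ hcl fun W hW A hA => ?_
    have h1 := engine (XE (AlgebraicClosure F) ρ φ (e * N) N) hcl (XE_conj (e * N) N) hbad
      (fun _ : Fin 1 => (1 : GK K)) W hW A (fun g hg => hA g (by
        have := hg 0
        rwa [mul_one] at this))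
    rwa [Nat.cast_one, one_mul] at h1
  obtain ⟨j, U, hU, hUn, h⟩ := core2 hn hρ hirr hφ hm μ (c := 1 - θ) (by linarith) hμ
  exact ⟨j, N, hN, U, hU, hUn, h⟩

include p in
/-- ratios of eigenvalues among the values of characters -/
theorem mainR (hn : 0 < n) (hρ : Continuous ρ)
    (hirr : ∀ W : Submodule F (Fin n → F), Stab ρ W → W = ⊥ ∨ W = ⊤)
    (hφ : ∀ j, Continuous (φ j)) {e : ℕ} (he : 0 < e) (P : Set (HeightOneSpectrum (𝓞 K)))
    (hP : ∀ v ∈ P, ∀ g, IsFrob v g → ∀ z w : AlgebraicClosure F,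
      (mE (AlgebraicClosure F) ρ g).charpoly.IsRoot z →
      (mE (AlgebraicClosure F) ρ g).charpoly.IsRoot w →
      ∃ j, ∃ a : ℕ, 0 < a ∧
        (z ^ e) ^ a = (algebraMap F (AlgebraicClosure F) (φ j g) * w ^ e) ^ a)
    {θ : ℝ} (hθ : n * θ < 1) (hfreq : ∃ᶠ N : ℕ in atTop, dens (fun v => v ∉ P) N ≤ θ) :
    ∃ U : Subgroup (GK K), IsOpen (U : Set (GK K)) ∧ U.Normal ∧
      ∀ u ∈ U, ∃ a : F, mt ρ u = a • (1 : Matrix _ _ F) := by
  classical
  let eqv := Fintype.equivFin (Fin n → Fin r)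
  have hdt : Continuous (dt ρ) := by
    show Continuous fun g => (mt ρ g).det
    exact Continuous.matrix_det (continuous_matrix fun i j =>
      Pool.Agent.R401.Sup.continuous_entry ρ hρ i j)
  have hc : ∀ k, Continuous (dtc ρ φ e (eqv.symm k)) := by
    intro k
    have h1 : ⇑(dtc ρ φ e (eqv.symm k)) = fun g => dt ρ g ^ e * ∏ i, φ (eqv.symm k i) g := by
      funext g
      exact dtc_apply e _ g
    rw [h1]
    exact (hdt.pow e).mul (continuous_finset_prod _ fun i _ => hφ _)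
  obtain ⟨j, N, hN, U, hU, hUn, h⟩ := mainE (φ := fun k => dtc ρ φ e (eqv.symm k)) p hn hρ hirr hc
    (Nat.mul_pos hn he) P (fun v hv g hg z hz => by
      obtain ⟨s, a, ha, hsa⟩ := ratio_det (hP v hv g hg) hz
      refine ⟨eqv s, a, ha, ?_⟩
      rw [hsa, Equiv.symm_apply_apply]) hθ hfreq
  refine ⟨U, hU, hUn, fun u hu => ?_⟩
  obtain ⟨a, ha, -⟩ := h u hu
  exact ⟨a, ha⟩

end main

end Pool.Agent.T9h32.ER
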