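import Pool.Agent.T9h32.ER.Fin
import Pool.Agent.Y142.Char

/-!
# Characters of the absolute Galois group of the rational numbers; twists (helper32)
-/

set_option autoImplicit false

namespace Pool.Agent.T9h32.ER

open NumberField Filter Topology Polynomial
open Pool.Agent.R401.Img Pool.Agent.R401.Eng Pool.Agent.T9h32.EV

section rat
variable {p : ℕ} [hp : Fact p.Prime]

open Pool.Agent.Y142 Pool.Agent.W569.FM in
/-- a character which is a power of the cyclotomic character at one element -/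
theorem char_one (δ χ : GF ℚ →* ℚ_[p]ˣ) (hδ : Continuous fun g => (δ g : ℚ_[p]))
    (hχ : Continuous fun g => (χ g : ℚ_[p])) {g₀ : GF ℚ} {q : ℕ} (hq : 1 < q)
    (hq0 : (χ g₀ : ℚ_[p]) = q) {K : ℕ} (hK : 0 < K) {k : ℤ}
    (h : δ g₀ ^ K = χ g₀ ^ (k * K)) : ∃ M : ℕ, 0 < M ∧ ∀ g, δ g ^ M = χ g ^ (k * M) := by
  obtain ⟨f, hf, hfδ⟩ := exists_log δ hδ
  obtain ⟨l, hl, hlχ⟩ := exists_log χ hχ
  have hM0 : p * (p - 1) ≠ 0 := by
    have := hp.out.two_le
    exact Nat.mul_ne_zero (by omega) (by omega)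
  generalize p * (p - 1) = M at hfδ hlχ hM0
  refine ⟨M, Nat.pos_of_ne_zero hM0, ?_⟩
  have hlg0 : l g₀ ≠ 1 := by
    intro h
    have h1 := hlχ g₀
    rw [h, toAdd_one, PadicInt.coe_zero, ee_zero, hq0] at h1
    have h2 : q ^ M = 1 := by exact_mod_cast h1.symm
    rcases Nat.pow_eq_one.1 h2 with h3 | h3
    · omega
    · exact hM0 h3
  obtain ⟨a, c, hac⟩ := kw_padic hmod_all hf hl ⟨g₀, hlg0⟩
  set F : GF ℚ → ℤ_[p] := fun g => Multiplicative.toAdd (f g) with hF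
  set L : GF ℚ → ℤ_[p] := fun g => Multiplicative.toAdd (l g) with hL
  have hac' : ∀ g, (p : ℤ_[p]) ^ a * F g = c * L g := hac
  have hfδ' : ∀ g, ee (F g : ℚ_[p]) = (δ g : ℚ_[p]) ^ M := hfδ
  have hlχ' : ∀ g, ee (L g : ℚ_[p]) = (χ g : ℚ_[p]) ^ M := hlχ
  have hL0 : L g₀ ≠ 0 := fun h => hlg0 (by
    apply Multiplicative.toAdd.injective
    rw [toAdd_one]
    exact h)
  have hint : ∀ (m : ℤ) (x : ℤ_[p]), ‖(m : ℚ_[p]) * (x : ℚ_[p])‖ ≤ 1 := by
    intro m x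
    rw [norm_mul]
    exact mul_le_one₀ (Padic.norm_int_le_one m) (norm_nonneg _) x.2
  -- at `g₀`
  have h0 : (K : ℤ_[p]) * F g₀ = ((k * K : ℤ) : ℤ_[p]) * L g₀ := by
    have h1 : ee (((K : ℤ) : ℚ_[p]) * (F g₀ : ℚ_[p])) = ee (((k * K : ℤ) : ℚ_[p]) * (L g₀ : ℚ_[p])) := by
      rw [ee_intCast_mul (F g₀).2, ee_intCast_mul (L g₀).2, hfδ', hlχ', zpow_natCast, ← pow_mul,
        mul_comm M K, pow_mul]
      have h2 : (δ g₀ : ℚ_[p]) ^ K = (χ g₀ : ℚ_[p]) ^ (k * K) := by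
        rw [← Units.val_pow_eq_pow_val, h, Units.val_zpow_eq_zpow_val]
      rw [h2, ← zpow_natCast ((χ g₀ : ℚ_[p]) ^ (k * K)) M, ← zpow_natCast (χ g₀ : ℚ_[p]) M,
        ← zpow_mul, ← zpow_mul, mul_comm]
    have h2 := ee_inj (hint _ _) (hint _ _) h1
    apply Subtype.ext
    push_cast at h2 ⊢
    exact h2
  have hK' : (K : ℤ_[p]) ≠ 0 := by exact_mod_cast hK.ne'
  have h1 : F g₀ = (k : ℤ_[p]) * L g₀ := by
    apply mul_left_cancel₀ hK'
    rw [h0]
    push_cast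
    ring
  have h2 : c = (p : ℤ_[p]) ^ a * k := by
    have h3 := hac' g₀
    rw [h1, ← mul_assoc] at h3
    exact (mul_right_cancel₀ hL0 h3).symm
  have hp0 : (p : ℤ_[p]) ^ a ≠ 0 := pow_ne_zero _ (by exact_mod_cast hp.out.ne_zero)
  intro g
  have h3 : F g = (k : ℤ_[p]) * L g := by
    apply mul_left_cancel₀ hp0
    rw [hac', h2, mul_assoc]
  apply Units.ext
  rw [Units.val_pow_eq_pow_val, Units.val_zpow_eq_zpow_val, ← hfδ', h3]
  push_cast
  rw [ee_intCast_mul (L g).2, hlχ', ← zpow_natCast, ← zpow_mul, mul_comm]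

end rat

section twist
variable {Γ : Type} [Group Γ] [TopologicalSpace Γ] [IsTopologicalGroup Γ]
  {F : Type} [NormedField F] {n : ℕ} (hn : 0 < n) {ρ : Γ →* GL (Fin n) F}

/-- if the representation acts by scalars on an open subgroup, a character with the right
determinant equals these scalars on an open subgroup -/
theorem twist_open (hρ : Continuous ρ) {U : Subgroup Γ} (hU : IsOpen (U : Set Γ))
    (hs : ∀ u ∈ U, ∃ a : F, mt ρ u = a • (1 : Matrix _ _ F)) (ψ : Γ →* F) (hψ : Continuous ψ)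
    {b : ℕ} (hb : 0 < b) (hdet : ∀ g, (mt ρ g).det ^ b = ψ g ^ (n * b)) :
    IsOpen (Pool.Agent.R401.Sup.NN hn ρ ψ (2 * 1) : Set Γ) := by
  classical
  let i₀ : Fin n := ⟨0, hn⟩
  have hψ0 : ∀ g, ψ g ≠ 0 := Pool.Agent.R401.Sup.c_ne ψ
  let β : Γ → F := fun g => mt ρ g i₀ i₀ * ψ g⁻¹
  have hβ : Continuous β :=
    (Pool.Agent.R401.Sup.continuous_entry ρ hρ i₀ i₀).mul (hψ.comp continuous_inv)
  have hnb : 0 < n * b := Nat.mul_pos hn hb
  set S : Set F := {x | x ^ (n * b) = 1 ∧ x ≠ 1} with hS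
  have hSf : S.Finite := (finite_pow_eq hnb (1 : F)).subset fun x hx => hx.1
  have hO : IsOpen ((U : Set Γ) ∩ β ⁻¹' Sᶜ) := hU.inter (hSf.isClosed.isOpen_compl.preimage hβ)
  have h1 : (1 : Γ) ∈ (U : Set Γ) ∩ β ⁻¹' Sᶜ := by
    refine ⟨U.one_mem, ?_⟩
    rintro ⟨-, h2⟩
    apply h2
    show mt ρ 1 i₀ i₀ * ψ 1⁻¹ = 1
    rw [Pool.Agent.R401.Sup.mt_one, Matrix.one_apply_eq, inv_one, map_one, mul_one]
  refine Subgroup.isOpen_of_mem_nhds _ (g := 1) ?_
  refine mem_of_superset (hO.mem_nhds h1) ?_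
  rintro u ⟨hu, huS⟩
  obtain ⟨a, ha⟩ := hs u hu
  have h2 : β u = a * ψ u⁻¹ := by
    show mt ρ u i₀ i₀ * ψ u⁻¹ = _
    rw [ha, Matrix.smul_apply, Matrix.one_apply_eq, smul_eq_mul, mul_one]
  have hinv : ψ u⁻¹ * ψ u = 1 := by rw [← map_mul, inv_mul_cancel, map_one]
  have h3 : β u ^ (n * b) = 1 := by
    have h4 := hdet u
    rw [ha, Matrix.det_smul, Matrix.det_one, mul_one, Fintype.card_fin, ← pow_mul] at h4
    rw [h2, mul_pow, h4, ← mul_pow, mul_comm, hinv, one_pow]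
  have h4 : β u = 1 := by
    by_contra hne
    exact huS ⟨h3, hne⟩
  refine ⟨a, ha, ?_⟩
  have h5 : a = ψ u := by
    have h6 := congrArg (fun x => x * ψ u) h4
    simp only [h2, mul_assoc, hinv, mul_one, one_mul] at h6
    exact h6
  rw [h5]
  norm_cast

end twist

section frob
variable {p : ℕ} [hp : Fact p.Prime] {n : ℕ}

/-- one eigenvalue determines the determinant -/
theorem det_of_eigen {Γ : Type*} [Group Γ] {ρ : Γ →* GL (Fin n) ℚ_[p]} {U : Subgroup Γ}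
    (hs : ∀ u ∈ U, ∃ a : ℚ_[p], mt ρ u = a • (1 : Matrix _ _ ℚ_[p])) {g : Γ} {k : ℕ}
    (hk : g ^ k ∈ U) {z : AlgebraicClosure ℚ_[p]}
    (hz : (mE (AlgebraicClosure ℚ_[p]) ρ g).charpoly.IsRoot z) {b : ℕ} {x : ℚ_[p]}
    (hzb : z ^ b = algebraMap ℚ_[p] (AlgebraicClosure ℚ_[p]) x) :
    (mt ρ g).det ^ (k * b) = x ^ (n * k) := by
  obtain ⟨a, ha⟩ := hs _ hk
  obtain ⟨v, hv, hvz⟩ : ∃ v, v ≠ 0 ∧ (mE (AlgebraicClosure ℚ_[p]) ρ g).mulVec v = z • v := by
    have h1 : Module.End.HasEigenvalue (Matrix.toLin' (mE (AlgebraicClosure ℚ_[p]) ρ g)) z := by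
      rw [Module.End.hasEigenvalue_iff_isRoot_charpoly, Matrix.charpoly_toLin']
      exact hz
    obtain ⟨v, hv⟩ := h1.exists_hasEigenvector
    exact ⟨v, hv.2, by simpa using hv.apply_eq_smul⟩
  have hpow : ∀ k : ℕ, (mE (AlgebraicClosure ℚ_[p]) ρ (g ^ k)).mulVec v = z ^ k • v := by
    intro k
    induction k with
    | zero => rw [pow_zero, pow_zero, mE_one, Matrix.one_mulVec, one_smul]
    | succ k ih =>
      rw [pow_succ', mE_mul, ← Matrix.mulVec_mulVec, ih, Matrix.mulVec_smul, hvz, smul_smul,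
        pow_succ]
  have h1 : z ^ k = algebraMap _ _ a := by
    have h2 := hpow k
    have h3 : mE (AlgebraicClosure ℚ_[p]) ρ (g ^ k) =
        (algebraMap ℚ_[p] (AlgebraicClosure ℚ_[p]) a) • 1 := by
      unfold mE
      rw [ha]
      ext i j
      rw [Matrix.map_apply, Matrix.smul_apply, Matrix.smul_apply, smul_eq_mul, smul_eq_mul,
        map_mul]
      by_cases hij : i = j
      · rw [hij, Matrix.one_apply_eq, Matrix.one_apply_eq, map_one]
      · rw [Matrix.one_apply_ne hij, Matrix.one_apply_ne hij, map_zero]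
    rw [h3, Matrix.smul_mulVec, Matrix.one_mulVec] at h2
    have h4 : (z ^ k - algebraMap _ _ a) • v = 0 := by
      rw [sub_smul, h2, sub_self]
    exact sub_eq_zero.1 ((smul_eq_zero.1 h4).resolve_right hv)
  have h2 : a ^ b = x ^ k := by
    apply (algebraMap ℚ_[p] (AlgebraicClosure ℚ_[p])).injective
    rw [map_pow, map_pow, ← h1, ← hzb, ← pow_mul, ← pow_mul, mul_comm]
  have h3 : (mt ρ g).det ^ k = a ^ n := by
    have h4 : (mt ρ (g ^ k)).det = (mt ρ g).det ^ k := map_pow (dt ρ) g k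
    rw [← h4, ha, Matrix.det_smul, Matrix.det_one, mul_one, Fintype.card_fin]
  rw [pow_mul, h3, ← pow_mul, mul_comm n b, pow_mul, h2, ← pow_mul, mul_comm k n]

end frob

end Pool.Agent.T9h32.ER
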