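import Pool.Agent.T9h32.ER.Core

/-!
# Eigenvalues a power of which is a value of a character: the main theorem (helper32)
-/

set_option autoImplicit false

namespace Pool.Agent.T9h32.ER

open MeasureTheory Topology Polynomial Pool.Agent.R401.Img Module Pool.Agent.T9h32.EV

variable {Γ : Type} [Group Γ] {F : Type} [Field F] {E : Type} [Field E] [Algebra F E] {n r : ℕ}
  {ρ : Γ →* GL (Fin n) F} {ψ : Fin r → Γ →* F}
  [TopologicalSpace Γ] [IsTopologicalGroup Γ] [CompactSpace Γ] [MeasurableSpace Γ]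
  [BorelSpace Γ] [TopologicalSpace F] [IsTopologicalRing F] [T2Space F]

/-- one of finitely many members of the family which cover a coset contains it -/
theorem one_of {𝓕 : Set (Set Γ)} {μ : Measure Γ} [μ.IsOpenPosMeasure] {U : Subgroup Γ}
    (hUo : IsOpen (U : Set Γ))
    (hd : ∀ Z ∈ 𝓕, ∀ g : Γ, μ (Z ∩ {x | g⁻¹ * x ∈ U}) ≠ 0 → ∀ u ∈ U, g * u ∈ Z)
    {ι : Type*} {I : Set ι} (hI : I.Finite) (Z : ι → Set Γ) (hZ : ∀ i ∈ I, Z i ∈ 𝓕) (g : Γ)
    (hcov : ∀ u ∈ U, ∃ i ∈ I, g * u ∈ Z i) : ∃ i ∈ I, ∀ u ∈ U, g * u ∈ Z i := by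
  obtain ⟨i, hi, hpos⟩ : ∃ i ∈ I, μ (Z i ∩ {x | g⁻¹ * x ∈ U}) ≠ 0 := by
    by_contra hcon
    push Not at hcon
    have h0 : {x | g⁻¹ * x ∈ U} ⊆ ⋃ i ∈ I, Z i ∩ {x | g⁻¹ * x ∈ U} := by
      intro x hx
      have hx' : g⁻¹ * x ∈ U := hx
      obtain ⟨i, hi, hxi⟩ := hcov _ hx'
      rw [mul_inv_cancel_left] at hxi
      exact Set.mem_biUnion hi ⟨hxi, hx⟩
    have h1 : μ {x | g⁻¹ * x ∈ U} = 0 :=
      measure_mono_null h0 ((measure_biUnion_null_iff hI.countable).2 hcon)
    have h2 : IsOpen {x | g⁻¹ * x ∈ U} := hUo.preimage (continuous_const.mul continuous_id)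
    refine (h2.measure_pos μ ⟨g, ?_⟩).ne' h1
    show g⁻¹ * g ∈ U
    rw [inv_mul_cancel]
    exact U.one_mem
  exact ⟨i, hi, hd _ (hZ i hi) g hpos⟩

omit [TopologicalSpace Γ] [IsTopologicalGroup Γ] [CompactSpace Γ] [MeasurableSpace Γ]
  [BorelSpace Γ] [TopologicalSpace F] [IsTopologicalRing F] [T2Space F] in
/-- zero sets of single functions -/
theorem single_mem {f : Γ → E} (hf : f ∈ reg E (xx ρ ψ)) : {h | f h = 0} ∈ zfam E (xx ρ ψ) := by
  refine ⟨{f}, ?_, ?_⟩
  · rw [Set.singleton_subset_iff]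
    exact hf
  · ext h
    simp [zs]

theorem core2 [IsAlgClosed E] [IsGalois F E] (hn : 0 < n) (hρ : Continuous ρ)
    (hirr : ∀ W : Submodule F (Fin n → F), Stab ρ W → W = ⊥ ∨ W = ⊤)
    (hψ : ∀ j, Continuous (ψ j)) {m N : ℕ} (hm : 0 < m) (μ : Measure Γ) [μ.IsMulLeftInvariant]
    [IsProbabilityMeasure μ] [μ.IsOpenPosMeasure] {c : ℝ} (hc : n * (1 - c) < 1)
    (hμ : ENNReal.ofReal c ≤ μ (XE E ρ ψ m N)) :
    ∃ j, ∃ U : Subgroup Γ, IsOpen (U : Set Γ) ∧ U.Normal ∧
      ∀ u ∈ U, ∃ a : F, mt ρ u = a • (1 : Matrix _ _ F) ∧ a ^ m = ψ j u ^ N := by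
  classical
  have hxx : ∀ i, Continuous (xx ρ ψ i) := by
    rintro (⟨i, j⟩ | j)
    · exact Pool.Agent.R401.Sup.continuous_entry ρ hρ i j
    · exact hψ j
  have hZF := zFam_zfam (E := E) hxx xx_left
  have huniv : μ Set.univ ≠ 0 := by
    rw [measure_univ]
    exact one_ne_zero
  obtain ⟨U, hUo, hUn, hd⟩ := dichotomy μ huniv hZF
  have hnt : Nontrivial (Fin n → E) := by
    have : Nonempty (Fin n) := ⟨⟨0, hn⟩⟩
    infer_instance
  obtain ⟨W, hW⟩ := exists_simple (ρ := rE E ρ) (U := U)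
  obtain ⟨L, hL, hLT⟩ := exists_list hW
  rw [finrank_fin_fun] at hL
  -- a common point
  have hL1 : L.length * (1 - c) < 1 := by
    rcases le_or_gt 0 (1 - c) with h0 | h0
    · refine lt_of_le_of_lt ?_ hc
      exact mul_le_mul_of_nonneg_right (by exact_mod_cast hL) h0
    · refine lt_of_le_of_lt ?_ one_pos
      exact mul_nonpos_of_nonneg_of_nonpos (Nat.cast_nonneg _) h0.le
  obtain ⟨g₀, hg₀⟩ := exists_common μ hUo (hd _ (XE_mem hm N)) hμ L hL1
  obtain ⟨g, hgX, hT⟩ : ∃ g : Γ, (∀ u ∈ U, g * u ∈ XE E ρ ψ m N) ∧ Twin (rE E ρ) U W hW.1 g := by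
    obtain ⟨γ, hγ, hT⟩ := hLT g₀
    exact ⟨γ⁻¹ * g₀, hg₀ γ hγ, hT⟩
  obtain ⟨W', hW', hgW'⟩ := exists_stable hW hT
  obtain ⟨P, hP⟩ := exists_proj W'
  set d := finrank E W' with hdd
  have hst : ∀ u ∈ U, ∀ x ∈ W', rE E ρ (g * u) x ∈ W' := by
    intro u hu x hx
    rw [rho_mul]
    exact hgW' _ (hW'.1 u hu x hx)
  -- the action on the simple subspace
  let ρ' : U →* Module.End E W' :=
    { toFun := fun u => (rE E ρ (u : Γ)).restrict (hW'.1 u u.2)
      map_one' := by
        ext x : 2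
        show ((rE E ρ 1 x : Fin n → E)) = x
        rw [map_one]
        rfl
      map_mul' := by
        intro u u'
        ext x : 2
        show rE E ρ (u * u') x = rE E ρ u (rE E ρ u' x)
        rw [rho_mul] }
  have hρ' : ∀ (u : U) (x : W'), ((ρ' u x : W') : Fin n → E) = rE E ρ u x := fun u x => rfl
  have hW'nt : Nontrivial W' := (Submodule.nontrivial_iff_ne_bot).2 hW'.2.1
  have hsim : ∀ S : Submodule E W', (∀ u, ∀ x ∈ S, ρ' u x ∈ S) → S = ⊥ ∨ S = ⊤ := by
    intro S hS
    rcases hW'.2.2 (S.map W'.subtype) (Submodule.map_subtype_le _ _) (by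
      rintro u hu _ ⟨x, hx, rfl⟩
      exact ⟨ρ' ⟨u, hu⟩ x, hS ⟨u, hu⟩ x hx, rfl⟩) with h1 | h1
    · left
      rw [eq_bot_iff]
      intro x hx
      have h2 : (x : Fin n → E) ∈ S.map W'.subtype := ⟨x, hx, rfl⟩
      rw [h1, Submodule.mem_bot] at h2
      exact (Submodule.mem_bot _).2 (Subtype.ext h2)
    · right
      rw [eq_top_iff]
      intro x _
      have h2 : (x : Fin n → E) ∈ S.map W'.subtype := by
        rw [h1]
        exact x.2
      obtain ⟨y, hy, hyx⟩ := h2
      rwa [← Subtype.ext hyx]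
  have hburn := burnside ρ' hW'nt hsim
  have hspan : Submodule.span E (Set.range ρ') = ⊤ := by
    rw [Submodule.eq_top_iff']
    intro T
    obtain ⟨x, rfl⟩ := hburn T
    induction x using MonoidAlgebra.induction_linear with
    | zero =>
      rw [map_zero]
      exact Submodule.zero_mem _
    | add x y hx hy =>
      rw [map_add]
      exact Submodule.add_mem _ hx hy
    | single u a =>
      have e1 : (MonoidAlgebra.lift E (Module.End E W') U ρ') (MonoidAlgebra.single u a) =
          a • ρ' u := MonoidAlgebra.lift_single _ _ _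
      rw [e1]
      exact Submodule.smul_mem _ _ (Submodule.subset_span ⟨u, rfl⟩)
  let G : Module.End E W' := (rE E ρ g).restrict hgW'
  have hGinj : Function.Injective G := by
    intro x y hxy
    exact Subtype.ext (rho_inj (ρ := rE E ρ) g (congrArg Subtype.val hxy))
  let Ge : W' ≃ₗ[E] W' := LinearEquiv.ofInjectiveEndo G hGinj
  have hGG : (Ge.symm : W' →ₗ[E] W') * G = 1 := by
    ext x : 1
    show Ge.symm (G x) = x
    exact Ge.symm_apply_apply x
  -- the elements on which the characters are trivial act through a finite set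
  set CC : Set (Module.End E W') := {A | ∃ c : U, (∀ j, ψ j c = 1) ∧ A = ρ' c} with hCC
  have hCfin : CC.Finite := by
    refine finite_of_trace hspan hGG ?_
    rintro _ ⟨u, rfl⟩
    -- the possible eigenvalues
    let R : Set E := {z | ∃ j, z ^ m = algebraMap F E (ψ j (g * u)) ^ N}
    have hR : R.Finite := by
      have h1 : R = ⋃ j, {z | z ^ m = algebraMap F E (ψ j (g * u)) ^ N} := by
        ext z
        rw [Set.mem_iUnion]
        exact Iff.rfl
      rw [h1]
      exact Set.finite_iUnion fun j => finite_pow_eq hm _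
    have hRd : {z : Fin d → E | ∀ i, z i ∈ R}.Finite := Set.Finite.pi' fun _ => hR
    refine (hRd.image fun z => ∑ i, z i).subset ?_
    rintro t ⟨_, ⟨c, hc, rfl⟩, rfl⟩
    have hmem : (u : Γ) * c ∈ U := (u * c).2
    have e1 : G * ρ' u * ρ' c = (rE E ρ (g * (u * c))).restrict (hst _ hmem) := by
      ext x : 2
      show rE E ρ g (rE E ρ u (rE E ρ c x)) = rE E ρ (g * (u * c)) x
      rw [rho_mul, rho_mul]
    obtain ⟨z, hz1, hz2⟩ := trace_eigen ((rE E ρ (g * (u * c))).restrict (hst _ hmem))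
    refine ⟨z, fun i => ?_, by rw [e1, hz1]⟩
    obtain ⟨v, hv, hvz⟩ := hz2 i
    obtain ⟨j, hj⟩ := XE_eigen (hgX _ hmem) (v := (v : Fin n → E))
      (fun h0 => hv (Subtype.ext h0)) (z := z i) (congrArg Subtype.val hvz)
    refine ⟨j, ?_⟩
    have e2 : ψ j (g * (u * c)) = ψ j (g * u) := by
      rw [← mul_assoc, map_mul (ψ j) _ (c : Γ), hc j, mul_one]
    rw [hj, e2]
  -- commutativity
  have hcomm : ∀ u₁ u₂ : U, ρ' (u₁ * u₂) = ρ' (u₂ * u₁) := by
    intro u₁ u₂
    let f : W' → Module.Dual E W' → Module.End E W' → Matrix (Fin n) (Fin n) E →ₗ[E] E :=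
      fun x φ A =>
      { toFun := fun M => φ (P ((M * mE E ρ u₂).mulVec x)) -
          φ (P ((mE E ρ u₂ * M).mulVec (A x)))
        map_add' := by
          intro M M'
          rw [add_mul, mul_add, Matrix.add_mulVec, Matrix.add_mulVec, map_add, map_add, map_add,
            map_add]
          ring
        map_smul' := by
          intro a M
          rw [smul_mul_assoc, mul_smul_comm, Matrix.smul_mulVec, Matrix.smul_mulVec, map_smul,
            map_smul, map_smul, map_smul, RingHom.id_apply, smul_sub] }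
    let Y : Module.End E W' → Set Γ := fun A =>
      zs (Set.range fun xφ : W' × Module.Dual E W' => fun h => f xφ.1 xφ.2 A (mE E ρ h))
    have hY : ∀ A ∈ CC, Y A ∈ zfam E (xx ρ ψ) := by
      intro A _
      refine ⟨_, ?_, rfl⟩
      rintro _ ⟨xφ, rfl⟩
      exact lin_mem _
    have hY2 : ∀ (A : Module.End E W') (h : U), (h : Γ) ∈ Y A ↔ ρ' (h * u₂) = ρ' (u₂ * h) * A := by
      intro A h
      have e1 : ∀ (x : W') (φ : Module.Dual E W'), f x φ A (mE E ρ h) =
          φ (ρ' (h * u₂) x) - φ ((ρ' (u₂ * h) * A) x) := by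
        intro x φ
        show φ (P ((mE E ρ h * mE E ρ u₂).mulVec x)) - φ (P ((mE E ρ u₂ * mE E ρ h).mulVec (A x))) =
          _
        rw [← mE_mul, ← mE_mul]
        have h1 : P ((mE E ρ (h * u₂)).mulVec x) = ρ' (h * u₂) x := hP (ρ' (h * u₂) x)
        have h2 : P ((mE E ρ (u₂ * h)).mulVec (A x)) = (ρ' (u₂ * h) * A) x :=
          hP (ρ' (u₂ * h) (A x))
        rw [h1, h2]
      constructor
      · intro hh
        apply LinearMap.ext
        intro x
        rw [← sub_eq_zero]
        apply (Module.forall_dual_apply_eq_zero_iff E _).1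
        intro φ
        have h2 := hh _ ⟨(x, φ), rfl⟩
        have h3 : f x φ A (mE E ρ h) = 0 := h2
        rw [e1] at h3
        rw [map_sub, h3]
      · rintro hh _ ⟨xφ, rfl⟩
        show f xφ.1 xφ.2 A (mE E ρ h) = 0
        rw [e1, hh, sub_self]
    obtain ⟨A, _, hA⟩ := one_of (ι := Module.End E W') hUo hd hCfin Y hY 1 (by
      intro u hu
      refine ⟨ρ' ((u₂ * ⟨u, hu⟩)⁻¹ * (⟨u, hu⟩ * u₂)), ⟨_, ?_, rfl⟩, ?_⟩
      · intro j
        have h1 : ψ j (((u₂ * ⟨u, hu⟩)⁻¹ * (⟨u, hu⟩ * u₂) : U) : Γ) =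
            ψ j ((u₂ : Γ) * u)⁻¹ * ψ j (u * (u₂ : Γ)) := by
          rw [← map_mul]
          rfl
        rw [h1, map_mul (ψ j) u, mul_comm (ψ j u), ← map_mul (ψ j), ← map_mul (ψ j),
          inv_mul_cancel, map_one]
      · rw [one_mul]
        exact (hY2 _ ⟨u, hu⟩).2 (by
          rw [← map_mul]
          congr 1
          group))
    have hA1 : ρ' u₂ = ρ' u₂ * A := by
      have h1 := hA 1 U.one_mem
      rw [one_mul] at h1
      have h2 := (hY2 A 1).1 h1
      rwa [one_mul, mul_one] at h2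
    have hA2 := hA u₁ u₁.2
    rw [one_mul] at hA2
    have hA3 := (hY2 A u₁).1 hA2
    have hA4 : A = 1 := by
      have h1 : ρ' u₂⁻¹ * ρ' u₂ = 1 := by rw [← map_mul, inv_mul_cancel, map_one]
      have h2 := congrArg (fun T => ρ' u₂⁻¹ * T) hA1
      simp only [← mul_assoc, h1, one_mul] at h2
      exact h2.symm
    rw [hA3, hA4, mul_one]
  -- scalars
  have hscal : ∀ u : U, ∃ a : E, ∀ x : W', ρ' u x = a • x := by
    intro u
    obtain ⟨a, ha⟩ := Module.End.exists_eigenvalue (ρ' u)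
    refine ⟨a, ?_⟩
    have h1 : ∀ u' : U, ∀ x ∈ Module.End.eigenspace (ρ' u) a, ρ' u' x ∈
        Module.End.eigenspace (ρ' u) a := by
      intro u' x hx
      rw [Module.End.mem_eigenspace_iff] at hx ⊢
      have h2 : ρ' u (ρ' u' x) = ρ' u' (ρ' u x) := by
        rw [← Module.End.mul_apply, ← Module.End.mul_apply, ← map_mul, ← map_mul, hcomm]
      rw [h2, hx, map_smul]
    rcases hsim _ h1 with h2 | h2
    · exact absurd h2 ha
    · intro x
      have h3 : x ∈ Module.End.eigenspace (ρ' u) a := by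
        rw [h2]
        trivial
      exact Module.End.mem_eigenspace_iff.1 h3
  obtain ⟨ν, hν⟩ := Module.End.exists_eigenvalue G
  obtain ⟨v', hv'⟩ := hν.exists_hasEigenvector
  have hGv : G v' = ν • v' := hv'.apply_eq_smul
  choose α' hα' using hscal
  let v : Fin n → E := Subtype.val v'
  have hv : v ≠ 0 := fun h0 => hv'.2 (Subtype.ext h0)
  let α : Γ → E := fun u => if h : u ∈ U then α' ⟨u, h⟩ else 1
  have hα : ∀ u ∈ U, (mE E ρ u).mulVec v = α u • v := by
    intro u hu
    have h1 := congrArg (fun x : W' => (x : Fin n → E)) (hα' ⟨u, hu⟩ v')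
    have h2 : α u = α' ⟨u, hu⟩ := dif_pos hu
    rw [h2]
    exact h1
  -- functionals
  have hfun : ∀ w : Fin n → E, w ≠ 0 → ∃ l : Matrix (Fin n) (Fin n) E →ₗ[E] E,
      ∀ (M : Matrix (Fin n) (Fin n) E) (a : E), M.mulVec w = a • w → l M = a := by
    intro w hw
    obtain ⟨φ, hφ⟩ : ∃ φ : Module.Dual E (Fin n → E), φ w = 1 := by
      obtain ⟨φ, hφ⟩ : ∃ φ : Module.Dual E (Fin n → E), φ w ≠ 0 := by
        by_contra hcon
        push Not at hcon
        exact hw ((Module.forall_dual_apply_eq_zero_iff E _).1 hcon)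
      refine ⟨(φ w)⁻¹ • φ, ?_⟩
      rw [LinearMap.smul_apply, smul_eq_mul, inv_mul_cancel₀ hφ]
    refine ⟨{ toFun := fun M => φ (M.mulVec w), map_add' := ?_, map_smul' := ?_ }, ?_⟩
    · intro M M'
      rw [Matrix.add_mulVec, map_add]
    · intro a M
      rw [Matrix.smul_mulVec, map_smul, RingHom.id_apply]
    · intro M a hM
      show φ (M.mulVec w) = a
      rw [hM, map_smul, hφ, smul_eq_mul, mul_one]
  obtain ⟨l, hl⟩ := hfun v hv
  have hgv : ∀ u ∈ U, (mE E ρ (g * u)).mulVec v = (α u * ν) • v := by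
    intro u hu
    rw [mE_mul, ← Matrix.mulVec_mulVec, hα u hu, Matrix.mulVec_smul, mul_smul]
    congr 1
    exact congrArg (fun x : W' => (x : Fin n → E)) hGv
  -- the character
  obtain ⟨j, -, hj⟩ := one_of (ι := Fin r) (I := Set.univ) hUo hd Set.finite_univ
    (fun j => {h | ((fun h => l (mE E ρ h)) ^ m - (fun h => algebraMap F E (ψ j h)) ^ N : Γ → E) h
      = 0}) (fun j _ => single_mem (Subalgebra.sub_mem _ (Subalgebra.pow_mem _ (lin_mem l) _)
        (Subalgebra.pow_mem _ (psi_mem j) _))) g (by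
    intro u hu
    obtain ⟨j, hj⟩ := XE_eigen (hgX u hu) hv (hgv u hu)
    refine ⟨j, trivial, ?_⟩
    show l (mE E ρ (g * u)) ^ m - algebraMap F E (ψ j (g * u)) ^ N = 0
    rw [hl _ _ (hgv u hu), hj, sub_self])
  have hj' : ∀ u ∈ U, (α u * ν) ^ m = algebraMap F E (ψ j (g * u)) ^ N := by
    intro u hu
    have h1 : l (mE E ρ (g * u)) ^ m - algebraMap F E (ψ j (g * u)) ^ N = 0 := hj u hu
    rw [hl _ _ (hgv u hu), sub_eq_zero] at h1
    exact h1
  have hψ0 : ∀ x : Γ, algebraMap F E (ψ j x) ≠ 0 := by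
    intro x
    rw [Ne, map_eq_zero]
    exact Pool.Agent.R401.Sup.c_ne (ψ j) x
  have hα1 : α 1 = 1 := by
    have h1 := hα 1 U.one_mem
    rw [mE_one, Matrix.one_mulVec] at h1
    have h2 : (1 - α 1) • v = 0 := by
      rw [sub_smul, one_smul, ← h1, sub_self]
    have h3 := (smul_eq_zero.1 h2).resolve_right hv
    exact (sub_eq_zero.1 h3).symm
  have hαj : ∀ u ∈ U, α u ^ m = algebraMap F E (ψ j u) ^ N := by
    intro u hu
    have h1 := hj' 1 U.one_mem
    have h2 := hj' u hu
    rw [hα1, one_mul, mul_one] at h1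
    rw [mul_pow, h1, map_mul (ψ j), map_mul, mul_pow, mul_comm] at h2
    exact mul_left_cancel₀ (pow_ne_zero _ (hψ0 g)) h2
  -- uniqueness of the character
  have huniq : ∀ (w : Fin n → E) (β : Γ → E), w ≠ 0 → (∀ u ∈ U, (mE E ρ u).mulVec w = β u • w) →
      (∀ u ∈ U, β u ^ m = algebraMap F E (ψ j u) ^ N) → ∀ u ∈ U, β u = α u := by
    intro w β hw hβ hβj
    obtain ⟨l', hl'⟩ := hfun w hw
    obtain ⟨ζ, -, hζ⟩ := one_of (ι := E) hUo hd (finite_pow_eq hm (1 : E))
      (fun ζ => {h | ((fun h => l' (mE E ρ h)) - ζ • (fun h => l (mE E ρ h)) : Γ → E) h = 0})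
      (fun ζ _ => single_mem (Subalgebra.sub_mem _ (lin_mem l')
        (Subalgebra.smul_mem _ (lin_mem l) _))) 1 (by
      intro u hu
      have hα0 : α u ≠ 0 := by
        intro h0
        have h1 := hαj u hu
        rw [h0, zero_pow hm.ne'] at h1
        exact pow_ne_zero _ (hψ0 u) h1.symm
      refine ⟨β u / α u, ?_, ?_⟩
      · show (β u / α u) ^ m = 1
        rw [div_pow, hβj u hu, hαj u hu, div_self (pow_ne_zero _ (hψ0 u))]
      · show l' (mE E ρ (1 * u)) - (β u / α u) * l (mE E ρ (1 * u)) = 0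
        rw [one_mul, hl' _ _ (hβ u hu), hl _ _ (hα u hu), div_mul_cancel₀ _ hα0, sub_self])
    have h1 : ∀ u ∈ U, β u = ζ * α u := by
      intro u hu
      have h2 : l' (mE E ρ (1 * u)) - ζ * l (mE E ρ (1 * u)) = 0 := hζ u hu
      rw [one_mul, hl' _ _ (hβ u hu), hl _ _ (hα u hu), sub_eq_zero] at h2
      exact h2
    have hβ1 : β 1 = 1 := by
      have h1 := hβ 1 U.one_mem
      rw [mE_one, Matrix.one_mulVec] at h1
      have h2 : (1 - β 1) • w = 0 := by
        rw [sub_smul, one_smul, ← h1, sub_self]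
      have h3 := (smul_eq_zero.1 h2).resolve_right hw
      exact (sub_eq_zero.1 h3).symm
    have h2 := h1 1 U.one_mem
    rw [hβ1, hα1, mul_one] at h2
    intro u hu
    rw [h1 u hu, ← h2, one_mul]
  -- invariance under conjugation
  have hconj : ∀ (h : Γ), ∀ u ∈ U, α (h⁻¹ * u * h) = α u := by
    intro h
    have hU' : ∀ u ∈ U, h⁻¹ * u * h ∈ U := by
      intro u hu
      have := hUn.conj_mem u hu h⁻¹
      rwa [inv_inv] at this
    refine huniq ((mE E ρ h).mulVec v) (fun u => α (h⁻¹ * u * h)) ?_ ?_ ?_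
    · intro h0
      exact hv (rho_inj (ρ := rE E ρ) h (by
        rw [map_zero]
        exact h0))
    · intro u hu
      have h1 := hα _ (hU' u hu)
      rw [← Matrix.mulVec_smul, ← h1, Matrix.mulVec_mulVec, Matrix.mulVec_mulVec, ← mE_mul,
        ← mE_mul]
      congr 2
      group
    · intro u hu
      show α (h⁻¹ * u * h) ^ m = _
      rw [hαj _ (hU' u hu)]
      have h2 : ψ j (h⁻¹ * u * h) = ψ j u := by
        have := psi_conj (ψ := ψ) j u h⁻¹
        rwa [inv_inv] at this
      rw [h2]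
  -- invariance under automorphisms
  have hgal : ∀ u ∈ U, ∃ a : F, algebraMap F E a = α u := by
    intro u hu
    have h1 : α u ∈ (⊥ : IntermediateField F E) := by
      rw [InfiniteGalois.mem_bot_iff_fixed]
      intro τ
      refine huniq (fun i => τ (v i)) (fun u => τ (α u)) ?_ ?_ ?_ u hu
      · intro h0
        apply hv
        funext i
        have h2 := congrFun h0 i
        exact (map_eq_zero_iff τ τ.injective).1 h2
      · intro u hu
        funext i
        have h2 := congrArg τ (congrFun (hα u hu) i)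
        rw [Pi.smul_apply, smul_eq_mul, map_mul] at h2
        rw [Pi.smul_apply, smul_eq_mul, ← h2, Matrix.mulVec, Matrix.mulVec, dotProduct,
          dotProduct, map_sum]
        refine Finset.sum_congr rfl fun k _ => ?_
        rw [map_mul]
        congr 1
        exact (τ.commutes (mt ρ u i k)).symm
      · intro u hu
        show τ (α u) ^ m = _
        rw [← map_pow, hαj u hu, map_pow, τ.commutes]
    exact IntermediateField.mem_bot.1 h1
  choose! a ha using hgal
  have hainj : ∀ x y : F, algebraMap F E x = algebraMap F E y → x = y :=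
    fun x y h => (algebraMap F E).injective h
  refine ⟨j, U, hUo, hUn, ?_⟩
  -- descent to `F`
  let S : Submodule F (Fin n → F) :=
    { carrier := {w | ∀ u ∈ U, (mt ρ u).mulVec w = a u • w}
      add_mem' := by
        intro x y hx hy u hu
        rw [Matrix.mulVec_add, hx u hu, hy u hu, smul_add]
      zero_mem' := by
        intro u hu
        rw [Matrix.mulVec_zero, smul_zero]
      smul_mem' := by
        intro b w hw u hu
        rw [Matrix.mulVec_smul, hw u hu, smul_comm] }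
  have hSst : Stab ρ S := by
    intro h w hw u hu
    have hconj' : h⁻¹ * u * h ∈ U := by
      have := hUn.conj_mem u hu h⁻¹
      rwa [inv_inv] at this
    have h1 := hw _ hconj'
    have h2 : a (h⁻¹ * u * h) = a u := by
      apply hainj
      rw [ha _ hconj', ha u hu, hconj h u hu]
    rw [h2] at h1
    rw [Matrix.mulVec_mulVec, ← mt_mul, ← Matrix.mulVec_smul, ← h1, Matrix.mulVec_mulVec, ← mt_mul]
    congr 2
    group
  rcases hirr S hSst with h0 | h0
  · exfalso
    obtain ⟨i, hi⟩ : ∃ i, v i ≠ 0 := by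
      by_contra hcon
      push Not at hcon
      exact hv (funext hcon)
    obtain ⟨φ, hφ⟩ : ∃ φ : Module.Dual F E, φ (v i) ≠ 0 := by
      by_contra hcon
      push Not at hcon
      exact hi ((Module.forall_dual_apply_eq_zero_iff F _).1 hcon)
    have h1 : (fun k => φ (v k)) ∈ S := by
      intro u hu
      have h2 := hα u hu
      funext k
      have h3 := congrArg φ (congrFun h2 k)
      rw [Pi.smul_apply, smul_eq_mul, ← ha u hu, ← Algebra.smul_def, map_smul] at h3
      rw [Pi.smul_apply, ← h3]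
      rw [Matrix.mulVec, Matrix.mulVec, dotProduct, dotProduct, map_sum]
      refine Finset.sum_congr rfl fun q _ => ?_
      have h4 : mE E ρ u k q * v q = mt ρ u k q • v q := by
        rw [Algebra.smul_def]
        rfl
      rw [h4, map_smul, smul_eq_mul]
    rw [h0, Submodule.mem_bot] at h1
    exact hφ (congrFun h1 i)
  · intro u hu
    refine ⟨a u, ?_, ?_⟩
    · have h1 : ∀ w : Fin n → F, (mt ρ u).mulVec w = (a u • (1 : Matrix _ _ F)).mulVec w := by
        intro w
        have hw : w ∈ S := by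
          rw [h0]
          trivial
        rw [hw u hu, Matrix.smul_mulVec, Matrix.one_mulVec]
      exact Matrix.toLin'.injective (LinearMap.ext fun w => by
        rw [Matrix.toLin'_apply, Matrix.toLin'_apply]
        exact h1 w)
    · apply hainj
      rw [map_pow, map_pow, ha u hu, hαj u hu]

end Pool.Agent.T9h32.ER
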